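import Pool.Agent.Helper70.DK.Defs

/-! E5: entropy of products and under bijections. -/

namespace Pool.Agent.Helper70.DK

open Finset

open Classical in
theorem e5_fib_pos {Ω α : Type} (S : Finset Ω) (f : Ω → α) {ω : Ω} (h : ω ∈ S) :
    0 < ((S.filter (fun ω' => f ω' = f ω)).card : ℝ) := by
  have : 0 < (S.filter (fun ω' => f ω' = f ω)).card :=
    Finset.card_pos.2 ⟨ω, Finset.mem_filter.2 ⟨h, rfl⟩⟩
  exact_mod_cast this

theorem e5_card_pos {Ω : Type} (S : Finset Ω) (h : S.Nonempty) : 0 < (S.card : ℝ) := by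
  exact_mod_cast h.card_pos

theorem e5_ent {Ω α : Type} (S : Finset Ω) (f : Ω → α) (c : Ω → ℝ)
    (hc : ∀ ω ∈ S, ∀ [DecidablePred (fun ω' => f ω' = f ω)],
      Real.log (S.card : ℝ) - Real.log ((S.filter (fun ω' => f ω' = f ω)).card : ℝ) = c ω) :
    ent S f = (∑ ω ∈ S, c ω) / (S.card : ℝ) := by
  unfold ent
  congr 1
  exact Finset.sum_congr rfl (fun ω hω => @hc ω hω (fun _ => Classical.propDecidable _))

theorem e5_1 (Ω Ω' α : Type) (S : Finset Ω) (S' : Finset Ω') (f : Ω → α) (h' : S'.Nonempty) :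
    ent (S ×ˢ S') (fun x => f x.1) = ent S f := by
  classical
  rcases S.eq_empty_or_nonempty with rfl | h
  · simp [ent]
  unfold ent
  have hS := e5_card_pos S h
  have hS' := e5_card_pos S' h'
  have key : ∀ ω ∈ S ×ˢ S', (Real.log ((S ×ˢ S').card : ℝ) -
      Real.log (((S ×ˢ S').filter (fun ω' => f ω'.1 = f ω.1)).card : ℝ)) =
      Real.log (S.card : ℝ) - Real.log ((S.filter (fun ω' => f ω' = f ω.1)).card : ℝ) := by
    intro ω hω
    have h1 : (S ×ˢ S').filter (fun ω' => f ω'.1 = f ω.1) =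
        (S.filter (fun ω' => f ω' = f ω.1)) ×ˢ S' := by
      ext x
      simp only [Finset.mem_filter, Finset.mem_product]
      tauto
    have h2 := e5_fib_pos S f (Finset.mem_product.1 hω).1
    rw [h1, Finset.card_product, Finset.card_product, Nat.cast_mul, Nat.cast_mul,
      Real.log_mul hS.ne' hS'.ne', Real.log_mul h2.ne' hS'.ne']
    ring
  rw [Finset.sum_congr rfl key, Finset.sum_product, Finset.card_product, Nat.cast_mul]
  simp only [Finset.sum_const, nsmul_eq_mul]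
  rw [← Finset.mul_sum, mul_comm (S.card : ℝ), mul_div_mul_left _ _ hS'.ne']

theorem e5_2 (Ω Ω' α : Type) (S : Finset Ω) (S' : Finset Ω') (f : Ω' → α) (h : S.Nonempty) :
    ent (S ×ˢ S') (fun x => f x.2) = ent S' f := by
  classical
  rcases S'.eq_empty_or_nonempty with rfl | h'
  · simp [ent]
  unfold ent
  have hS := e5_card_pos S h
  have hS' := e5_card_pos S' h'
  have key : ∀ ω ∈ S ×ˢ S', (Real.log ((S ×ˢ S').card : ℝ) -
      Real.log (((S ×ˢ S').filter (fun ω' => f ω'.2 = f ω.2)).card : ℝ)) =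
      Real.log (S'.card : ℝ) - Real.log ((S'.filter (fun ω' => f ω' = f ω.2)).card : ℝ) := by
    intro ω hω
    have h1 : (S ×ˢ S').filter (fun ω' => f ω'.2 = f ω.2) =
        S ×ˢ (S'.filter (fun ω' => f ω' = f ω.2)) := by
      ext x
      simp only [Finset.mem_filter, Finset.mem_product]
      tauto
    have h2 := e5_fib_pos S' f (Finset.mem_product.1 hω).2
    rw [h1, Finset.card_product, Finset.card_product, Nat.cast_mul, Nat.cast_mul,
      Real.log_mul hS.ne' hS'.ne', Real.log_mul hS.ne' h2.ne']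
    ring
  rw [Finset.sum_congr rfl key, Finset.sum_product, Finset.card_product, Nat.cast_mul]
  simp only [Finset.sum_const, nsmul_eq_mul]
  rw [mul_div_mul_left _ _ hS.ne']

theorem e5_3 (Ω Ω' α β : Type) (S : Finset Ω) (S' : Finset Ω') (f : Ω → α) (g : Ω' → β)
    (h : S.Nonempty) (h' : S'.Nonempty) :
    ent (S ×ˢ S') (fun x => (f x.1, g x.2)) = ent S f + ent S' g := by
  classical
  have hS := e5_card_pos S h
  have hS' := e5_card_pos S' h'
  have key : ∀ ω ∈ S ×ˢ S', ∀ [DecidablePred (fun ω' : Ω × Ω' => (f ω'.1, g ω'.2) = (f ω.1, g ω.2))],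
      (Real.log ((S ×ˢ S').card : ℝ) -
      Real.log (((S ×ˢ S').filter (fun ω' => (f ω'.1, g ω'.2) = (f ω.1, g ω.2))).card : ℝ)) =
      (Real.log (S.card : ℝ) - Real.log ((S.filter (fun ω' => f ω' = f ω.1)).card : ℝ)) +
      (Real.log (S'.card : ℝ) - Real.log ((S'.filter (fun ω' => g ω' = g ω.2)).card : ℝ)) := by
    intro ω hω _
    have h1 : (S ×ˢ S').filter (fun ω' => (f ω'.1, g ω'.2) = (f ω.1, g ω.2)) =
        (S.filter (fun ω' => f ω' = f ω.1)) ×ˢ (S'.filter (fun ω' => g ω' = g ω.2)) := by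
      ext x
      simp only [Finset.mem_filter, Finset.mem_product, Prod.mk.injEq]
      tauto
    have h2 := e5_fib_pos S' g (Finset.mem_product.1 hω).2
    have h3 := e5_fib_pos S f (Finset.mem_product.1 hω).1
    rw [h1, Finset.card_product, Finset.card_product, Nat.cast_mul, Nat.cast_mul,
      Real.log_mul hS.ne' hS'.ne', Real.log_mul h3.ne' h2.ne']
    ring
  rw [e5_ent _ _ _ key]
  unfold ent
  rw [Finset.sum_product, Finset.card_product, Nat.cast_mul]
  simp only [Finset.sum_add_distrib, Finset.sum_const, nsmul_eq_mul]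
  rw [add_div, ← Finset.mul_sum, mul_div_mul_left _ _ hS.ne', mul_comm (S.card : ℝ) (S'.card : ℝ),
    mul_div_mul_left _ _ hS'.ne']

theorem e5_4 (Ω Ω' α : Type) (S : Finset Ω) (S' : Finset Ω') (F : Ω → Ω' → α)
    (h : S.Nonempty) (h' : S'.Nonempty) :
    cent (S ×ˢ S') (fun x => F x.1 x.2) (fun x => x.1) = (∑ x ∈ S, ent S' (F x)) / (S.card : ℝ) := by
  classical
  unfold cent
  have hS := e5_card_pos S h
  have hS' := e5_card_pos S' h'
  have key : ∀ ω ∈ S ×ˢ S',
      ∀ [DecidablePred (fun ω' : Ω × Ω' => (F ω'.1 ω'.2, ω'.1) = (F ω.1 ω.2, ω.1))],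
      (Real.log ((S ×ˢ S').card : ℝ) -
      Real.log (((S ×ˢ S').filter (fun ω' => (F ω'.1 ω'.2, ω'.1) = (F ω.1 ω.2, ω.1))).card : ℝ)) =
      Real.log (S.card : ℝ) +
      (Real.log (S'.card : ℝ) -
        Real.log ((S'.filter (fun ω' => F ω.1 ω' = F ω.1 ω.2)).card : ℝ)) := by
    intro ω hω _
    have h1 : (S ×ˢ S').filter (fun ω' => (F ω'.1 ω'.2, ω'.1) = (F ω.1 ω.2, ω.1)) =
        ({ω.1} : Finset Ω) ×ˢ (S'.filter (fun ω' => F ω.1 ω' = F ω.1 ω.2)) := by
      ext x
      simp only [Finset.mem_filter, Finset.mem_product, Prod.mk.injEq, Finset.mem_singleton]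
      constructor
      · rintro ⟨⟨_, h2⟩, h3, h4⟩
        rw [h4] at h3
        exact ⟨h4, h2, h3⟩
      · rintro ⟨h4, h2, h3⟩
        refine ⟨⟨?_, h2⟩, ?_, h4⟩
        · rw [h4]; exact (Finset.mem_product.1 hω).1
        · rw [h4]; exact h3
    rw [h1, Finset.card_product, Finset.card_product, Nat.cast_mul, Finset.card_singleton, one_mul,
      Real.log_mul hS.ne' hS'.ne']
    ring
  have key2 : ∀ ω ∈ S ×ˢ S', ∀ [DecidablePred (fun ω' : Ω × Ω' => ω'.1 = ω.1)],
      (Real.log ((S ×ˢ S').card : ℝ) -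
      Real.log (((S ×ˢ S').filter (fun ω' => ω'.1 = ω.1)).card : ℝ)) =
      Real.log (S.card : ℝ) := by
    intro ω hω _
    have h1 : (S ×ˢ S').filter (fun ω' => ω'.1 = ω.1) = ({ω.1} : Finset Ω) ×ˢ S' := by
      ext x
      simp only [Finset.mem_filter, Finset.mem_product, Finset.mem_singleton]
      constructor
      · rintro ⟨⟨_, h2⟩, h4⟩
        exact ⟨h4, h2⟩
      · rintro ⟨h4, h2⟩
        refine ⟨⟨?_, h2⟩, h4⟩
        rw [h4]; exact (Finset.mem_product.1 hω).1
    rw [h1, Finset.card_product, Finset.card_product, Nat.cast_mul, Finset.card_singleton, one_mul,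
      Real.log_mul hS.ne' hS'.ne']
    ring
  rw [e5_ent _ _ _ key, e5_ent _ _ _ key2]
  unfold ent
  rw [← sub_div, Finset.sum_add_distrib,
    add_sub_cancel_left, Finset.sum_product, Finset.card_product, Nat.cast_mul, ← Finset.sum_div]
  rw [mul_comm, ← div_div]

theorem e5_5 (Ω Ω' α : Type) (S : Finset Ω) (S' : Finset Ω') (e : Ω → Ω') (f : Ω' → α)
    (he : Set.BijOn e S S') : ent S (fun x => f (e x)) = ent S' f := by
  classical
  have hm : ∀ x ∈ S, e x ∈ S' := fun x hx => by exact_mod_cast he.mapsTo (by exact_mod_cast hx)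
  have hinj : ∀ x ∈ S, ∀ y ∈ S, e x = e y → x = y := fun x hx y hy hxy =>
    he.injOn (by exact_mod_cast hx) (by exact_mod_cast hy) hxy
  have hsurj : ∀ y ∈ S', ∃ x ∈ S, e x = y := fun y hy => by
    obtain ⟨x, hx, hxy⟩ := he.surjOn (show y ∈ (S' : Set Ω') by exact_mod_cast hy)
    exact ⟨x, by exact_mod_cast hx, hxy⟩
  have hc : S.card = S'.card :=
    Finset.card_bij (fun x _ => e x) hm (fun x hx y hy hxy => hinj x hx y hy hxy)
      (fun y hy => by obtain ⟨x, hx, hxy⟩ := hsurj y hy; exact ⟨x, hx, hxy⟩)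
  unfold ent
  rw [hc]
  congr 1
  refine Finset.sum_bij (fun x _ => e x) hm (fun x hx y hy hxy => hinj x hx y hy hxy)
      (fun y hy => by obtain ⟨x, hx, hxy⟩ := hsurj y hy; exact ⟨x, hx, hxy⟩) ?_
  intro x hx
  have h1 : (S.filter (fun ω' => f (e ω') = f (e x))).card =
      (S'.filter (fun ω' => f ω' = f (e x))).card := by
    refine Finset.card_bij (fun x _ => e x) ?_ ?_ ?_
    · intro a ha
      rw [Finset.mem_filter] at ha ⊢
      exact ⟨hm a ha.1, ha.2⟩
    · intro a ha b hb hab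
      exact hinj a (Finset.mem_filter.1 ha).1 b (Finset.mem_filter.1 hb).1 hab
    · intro b hb
      obtain ⟨a, ha, hab⟩ := hsurj b (Finset.mem_filter.1 hb).1
      refine ⟨a, Finset.mem_filter.2 ⟨ha, ?_⟩, hab⟩
      rw [hab]; exact (Finset.mem_filter.1 hb).2
  rw [h1]

theorem st_E5 : ST_E5 :=
  ⟨e5_1, e5_2, e5_3, e5_4, e5_5⟩

end Pool.Agent.Helper70.DK
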